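import Pool.Agent.Helper23.MV.StE
import Pool.Agent.Helper81.GK.M_AP2

/-!
# Project MV, module TR2: truncated L-series for the principal characters
-/

set_option autoImplicit false

namespace Pool.Agent.Helper8.MV

open Finset ArithmeticFunction
open Pool.Agent.Helper23.MV
open Pool.Agent.Helper2.MR (ch)

private lemma moebSumTR2 (q : ℕ) (hq : q ≠ 0) (s : ℂ) :
    ∑ d ∈ q.divisors, (moebius d : ℂ) * (d : ℂ) ^ (-s) =
      ∏ p ∈ q.primeFactors, (1 - (p : ℂ) ^ (-s)) := by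
  set g : ArithmeticFunction ℂ := ⟨fun n => if n = 0 then 0 else (n : ℂ) ^ (-s), by simp⟩ with hg
  have hgm : g.IsMultiplicative := by
    constructor
    · simp [hg]
    · intro m n hmn
      by_cases hm : m = 0
      · simp [hg, hm]
      by_cases hn : n = 0
      · simp [hg, hn]
      simp only [hg, coe_mk, mul_eq_zero, hm, hn, or_self, if_false]
      push_cast
      exact Complex.natCast_mul_natCast_cpow m n (-s)
  set f : ArithmeticFunction ℂ := ((moebius : ArithmeticFunction ℤ) : ArithmeticFunction ℂ).pmul g with hf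
  have hfm : f.IsMultiplicative := isMultiplicative_moebius.intCast.pmul hgm
  have hz : (f * (zeta : ArithmeticFunction ℂ)).IsMultiplicative :=
    hfm.mul isMultiplicative_zeta.natCast
  have h1 : ∑ d ∈ q.divisors, (moebius d : ℂ) * (d : ℂ) ^ (-s) =
      (f * (zeta : ArithmeticFunction ℂ)) q := by
    rw [coe_mul_zeta_apply]
    refine sum_congr rfl fun d hd => ?_
    have hd0 : d ≠ 0 := (Nat.pos_of_mem_divisors hd).ne'
    simp [hf, hg, hd0]
  rw [h1, hz.multiplicative_factorization _ hq, Finsupp.prod, Nat.support_factorization]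
  refine prod_congr rfl fun p hp => ?_
  have hpp := Nat.prime_of_mem_primeFactors hp
  have hk : q.factorization p ≠ 0 := by
    rw [← Nat.support_factorization] at hp
    exact Finsupp.mem_support_iff.1 hp
  obtain ⟨k, hk'⟩ := Nat.exists_eq_succ_of_ne_zero hk
  rw [hk', coe_mul_zeta_apply, Nat.sum_divisors_prime_pow hpp, sum_range_succ', sum_range_succ']
  have h2 : ∑ i ∈ range k, f (p ^ (i + 1 + 1)) = 0 := by
    refine sum_eq_zero fun i _ => ?_
    have : moebius (p ^ (i + 1 + 1)) = 0 := by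
      rw [moebius_apply_prime_pow hpp (by omega), if_neg (by omega)]
    simp [hf, this]
  rw [h2]
  have h3 : f (p ^ (0 + 1)) = -(p : ℂ) ^ (-s) := by
    rw [zero_add, pow_one]
    simp [hf, hg, moebius_apply_prime hpp, hpp.ne_zero]
  have h4 : f (p ^ 0) = 1 := by
    rw [pow_zero]
    exact hfm.1
  rw [h3, h4]
  ring

private lemma totTR2 (q : ℕ) (hq : q ≠ 0) :
    ∑ d ∈ q.divisors, (moebius d : ℂ) * ((d : ℂ))⁻¹ = (q.totient : ℂ) / q := by
  have h1 := moebSumTR2 q hq 1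
  simp only [Complex.cpow_neg_one] at h1
  rw [h1]
  have h2 : ((q.totient : ℚ) : ℂ) = ((q * ∏ p ∈ q.primeFactors, (1 - (p : ℚ)⁻¹) : ℚ) : ℂ) := by
    rw [Nat.totient_eq_mul_prod_factors]
  push_cast at h2
  rw [h2]
  have : (q : ℂ) ≠ 0 := by exact_mod_cast hq
  field_simp

private lemma multTR2 (f : ℕ → ℂ) (M d : ℕ) (hd : 0 < d) :
    ∑ m ∈ Ioc 0 M, (if d ∣ m then f m else 0) = ∑ k ∈ Ioc 0 (M / d), f (d * k) := by
  rw [← sum_filter]
  symm
  refine sum_bij' (fun k _ => d * k) (fun m _ => m / d) ?_ ?_ ?_ ?_ ?_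
  · intro k hk
    rw [mem_Ioc] at hk
    rw [mem_filter, mem_Ioc]
    refine ⟨⟨Nat.mul_pos hd hk.1, ?_⟩, Dvd.intro _ rfl⟩
    calc d * k ≤ d * (M / d) := Nat.mul_le_mul_left _ hk.2
      _ ≤ M := Nat.mul_div_le M d
  · intro m hm
    rw [mem_filter, mem_Ioc] at hm
    rw [mem_Ioc]
    exact ⟨Nat.div_pos (Nat.le_of_dvd hm.1.1 hm.2) hd, Nat.div_le_div_right hm.1.2⟩
  · intro k _
    exact Nat.mul_div_cancel_left k hd
  · intro m hm
    rw [mem_filter] at hm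
    exact Nat.mul_div_cancel' hm.2
  · intro k _
    rfl

private lemma indTR2 (q : ℕ) [NeZero q] (m : ℕ) :
    (1 : DirichletCharacter ℂ q) (m : ZMod q) =
      ∑ d ∈ q.divisors, (if d ∣ m then (moebius d : ℂ) else 0) := by
  have hq : q ≠ 0 := NeZero.ne q
  have h0 : (1 : DirichletCharacter ℂ q) (m : ZMod q) = if Nat.Coprime m q then 1 else 0 := by
    by_cases h : Nat.Coprime m q
    · rw [if_pos h, MulChar.one_apply ((ZMod.isUnit_iff_coprime m q).2 h)]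
    · rw [if_neg h, MulChar.map_nonunit]
      rw [ZMod.isUnit_iff_coprime]
      exact h
  rw [h0, ← sum_filter]
  have h1 : q.divisors.filter (fun d => d ∣ m) = (Nat.gcd m q).divisors := by
    ext d
    rw [mem_filter, Nat.mem_divisors, Nat.mem_divisors, Nat.dvd_gcd_iff]
    constructor
    · rintro ⟨⟨h1, _⟩, h2⟩
      exact ⟨⟨h2, h1⟩, Nat.gcd_ne_zero_right hq⟩
    · rintro ⟨⟨h1, h2⟩, _⟩
      exact ⟨⟨h2, hq⟩, h1⟩
  rw [h1]
  have h2 : ∑ d ∈ (Nat.gcd m q).divisors, (moebius d : ℂ) =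
      ((moebius : ArithmeticFunction ℂ) * (zeta : ArithmeticFunction ℂ)) (Nat.gcd m q) := by
    rw [coe_mul_zeta_apply]
    rfl
  rw [h2, coe_moebius_mul_coe_zeta, one_apply]

private lemma DS_TR2 (q : ℕ) [NeZero q] (y : ℝ) (s : ℂ) :
    DS (1 : DirichletCharacter ℂ q) y s =
      ∑ d ∈ q.divisors, (moebius d : ℂ) * (d : ℂ) ^ (-s) *
        ∑ k ∈ Icc 1 (⌊y⌋₊ / d), (k : ℂ) ^ (-s) := by
  unfold DS
  have h1 : ∀ m ∈ Ioc 0 ⌊y⌋₊, (1 : DirichletCharacter ℂ q) (m : ZMod q) * (m : ℂ) ^ (-s) =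
      ∑ d ∈ q.divisors, (if d ∣ m then (moebius d : ℂ) * (m : ℂ) ^ (-s) else 0) := by
    intro m _
    rw [indTR2, sum_mul]
    refine sum_congr rfl fun d _ => ?_
    rw [ite_mul, zero_mul]
  rw [sum_congr rfl h1, sum_comm]
  refine sum_congr rfl fun d hd => ?_
  have hd0 : 0 < d := Nat.pos_of_mem_divisors hd
  rw [multTR2 (fun m => (moebius d : ℂ) * (m : ℂ) ^ (-s)) _ d hd0, mul_sum]
  have h2 : Ioc 0 (⌊y⌋₊ / d) = Icc 1 (⌊y⌋₊ / d) := by
    ext x
    simp only [mem_Icc, mem_Ioc]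
    omega
  rw [h2]
  refine sum_congr rfl fun k _ => ?_
  push_cast
  rw [Complex.natCast_mul_natCast_cpow d k (-s)]
  ring

private lemma polTR2 (s : ℂ) (hs : s ≠ 1) (hre : 0 ≤ s.re) (a b : ℝ) (ha : 0 < a) (hab : a ≤ b) :
    ‖(b : ℂ) ^ (1 - s) / (1 - s) - (a : ℂ) ^ (1 - s) / (1 - s)‖ ≤ a ^ (-s.re) * (b - a) := by
  have hr : -s ≠ -1 := fun h => hs (neg_injective h)
  have h1 : ∀ u ∈ Set.Icc a b, HasDerivWithinAt (fun y : ℝ => (y : ℂ) ^ (-s + 1) / (-s + 1))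
      ((u : ℂ) ^ (-s)) (Set.Icc a b) u := fun u hu =>
    (hasDerivAt_ofReal_cpow_const' (by linarith [hu.1] : u ≠ 0) hr).hasDerivWithinAt
  have h2 : ∀ u ∈ Set.Icc a b, ‖(u : ℂ) ^ (-s)‖ ≤ a ^ (-s.re) := by
    intro u hu
    rw [Complex.norm_cpow_eq_rpow_re_of_pos (by linarith [hu.1]), Complex.neg_re]
    exact Real.rpow_le_rpow_of_nonpos ha hu.1 (by linarith)
  have h3 := (convex_Icc a b).norm_image_sub_le_of_norm_hasDerivWithin_le h1 h2
    (Set.left_mem_Icc.2 hab) (Set.right_mem_Icc.2 hab)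
  rw [Real.norm_of_nonneg (by linarith : (0 : ℝ) ≤ b - a)] at h3
  have h4 : -s + 1 = 1 - s := by ring
  simpa only [h4] using h3

/-- one divisor -/
private lemma oneTR2 (hA : Pool.Agent.Helper23.GK.StAp2) (s : ℂ) (hs : s ≠ 1) (hre : 1 / 2 ≤ s.re)
    (hre2 : s.re ≤ 2) (y : ℝ) (d : ℕ) (hd : 0 < d) (hdy : (d : ℝ) ≤ y) :
    ‖(d : ℂ) ^ (-s) * ∑ k ∈ Icc 1 (⌊y⌋₊ / d), (k : ℂ) ^ (-s) - (d : ℂ) ^ (-s) * riemannZeta s -
      ((d : ℂ))⁻¹ * ((y : ℂ) ^ (1 - s) / (1 - s))‖ ≤ 4 * (2 * ‖s‖ + 1) * y ^ (-s.re) := by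
  have hd0 : (0 : ℝ) < d := by exact_mod_cast hd
  have hy0 : 0 < y := lt_of_lt_of_le hd0 hdy
  set N : ℕ := ⌊y⌋₊ / d with hN
  have hNx : N = ⌊y / d⌋₊ := by rw [hN, Nat.floor_div_natCast]
  set x : ℝ := y / d with hx
  have hx1 : 1 ≤ x := by rw [hx, le_div_iff₀ hd0]; linarith
  have hN1 : 1 ≤ N := by
    rw [hNx]
    exact Nat.le_floor (by simpa using hx1)
  have hNR : (1 : ℝ) ≤ N := by exact_mod_cast hN1
  have hNle : (N : ℝ) ≤ x := by rw [hNx]; exact Nat.floor_le (by linarith)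
  have hNlt : x < N + 1 := by rw [hNx]; exact Nat.lt_floor_add_one x
  have h1 := hA s N hs hre hN1
  have h2 := polTR2 s hs (by linarith) N x (by linarith) hNle
  have h3 : (N : ℝ) ^ (-s.re) * (x - N) ≤ (N : ℝ) ^ (-s.re) := by
    have h0 : (0 : ℝ) ≤ (N : ℝ) ^ (-s.re) := by positivity
    nlinarith
  have h4 : (N : ℝ) ^ (-s.re) ≤ 4 * x ^ (-s.re) := by
    have h5 : x / 2 ≤ N := by linarith
    calc (N : ℝ) ^ (-s.re) ≤ (x / 2) ^ (-s.re) :=
          Real.rpow_le_rpow_of_nonpos (by linarith) h5 (by linarith)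
      _ = (2 : ℝ) ^ s.re * x ^ (-s.re) := by
          rw [Real.div_rpow (by linarith) (by norm_num), Real.rpow_neg (by norm_num : (0:ℝ) ≤ 2),
            div_inv_eq_mul, mul_comm]
      _ ≤ 4 * x ^ (-s.re) := by
          refine mul_le_mul_of_nonneg_right ?_ (by positivity)
          calc (2 : ℝ) ^ s.re ≤ (2 : ℝ) ^ (2 : ℝ) :=
                Real.rpow_le_rpow_of_exponent_le (by norm_num) hre2
            _ = 4 := by norm_num
  have hdc : (d : ℂ) ≠ 0 := by exact_mod_cast hd.ne'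
  have h6 : ((d : ℂ))⁻¹ * ((y : ℂ) ^ (1 - s) / (1 - s)) =
      (d : ℂ) ^ (-s) * ((x : ℂ) ^ (1 - s) / (1 - s)) := by
    have h7 : (y : ℂ) = (d : ℝ) * (x : ℝ) := by
      rw [hx]
      push_cast
      field_simp
    rw [h7, Complex.mul_cpow_ofReal_nonneg hd0.le (by linarith)]
    have h8 : ((d : ℝ) : ℂ) ^ (1 - s) = (d : ℂ) * (d : ℂ) ^ (-s) := by
      rw [Complex.ofReal_natCast, sub_eq_add_neg, Complex.cpow_add _ _ hdc, Complex.cpow_one]
    rw [h8]
    field_simp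
  have h9 : (d : ℂ) ^ (-s) * ∑ k ∈ Icc 1 N, (k : ℂ) ^ (-s) - (d : ℂ) ^ (-s) * riemannZeta s -
      ((d : ℂ))⁻¹ * ((y : ℂ) ^ (1 - s) / (1 - s)) =
      (d : ℂ) ^ (-s) * (-(riemannZeta s - ∑ k ∈ Icc 1 N, (k : ℂ) ^ (-s) -
        (N : ℂ) ^ (1 - s) / (s - 1)) - ((x : ℂ) ^ (1 - s) / (1 - s) -
        ((N : ℝ) : ℂ) ^ (1 - s) / (1 - s))) := by
    rw [h6, Complex.ofReal_natCast]
    have h10 : (N : ℂ) ^ (1 - s) / (s - 1) = -((N : ℂ) ^ (1 - s) / (1 - s)) := by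
      rw [← neg_sub 1 s, div_neg]
    rw [h10]
    ring
  rw [h9, norm_mul]
  have h11 : ‖(d : ℂ) ^ (-s)‖ = (d : ℝ) ^ (-s.re) := by
    rw [Complex.norm_natCast_cpow_of_pos hd, Complex.neg_re]
  rw [h11]
  have h12 : ‖-(riemannZeta s - ∑ k ∈ Icc 1 N, (k : ℂ) ^ (-s) - (N : ℂ) ^ (1 - s) / (s - 1)) -
      ((x : ℂ) ^ (1 - s) / (1 - s) - ((N : ℝ) : ℂ) ^ (1 - s) / (1 - s))‖ ≤
      (2 * ‖s‖ + 1) * (4 * x ^ (-s.re)) := by
    refine (norm_sub_le _ _).trans ?_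
    rw [norm_neg]
    calc _ ≤ 2 * ‖s‖ * (N : ℝ) ^ (-s.re) + (N : ℝ) ^ (-s.re) := add_le_add h1 (h2.trans h3)
      _ = (2 * ‖s‖ + 1) * (N : ℝ) ^ (-s.re) := by ring
      _ ≤ _ := mul_le_mul_of_nonneg_left h4 (by positivity)
  have h13 : (d : ℝ) ^ (-s.re) * x ^ (-s.re) = y ^ (-s.re) := by
    rw [← Real.mul_rpow hd0.le (by linarith), hx, mul_div_cancel₀ _ hd0.ne']
  calc _ ≤ (d : ℝ) ^ (-s.re) * ((2 * ‖s‖ + 1) * (4 * x ^ (-s.re))) :=
        mul_le_mul_of_nonneg_left h12 (by positivity)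
    _ = 4 * (2 * ‖s‖ + 1) * ((d : ℝ) ^ (-s.re) * x ^ (-s.re)) := by ring
    _ = _ := by rw [h13]

/-- the basic approximation -/
private lemma bscTR2 (hA : Pool.Agent.Helper23.GK.StAp2) (q : ℕ) [NeZero q] (s : ℂ) (hs : s ≠ 1)
    (hre : 1 / 2 ≤ s.re) (hre2 : s.re ≤ 2) (y : ℝ) (hqy : (q : ℝ) ≤ y) :
    ‖DS (1 : DirichletCharacter ℂ q) y s - DirichletCharacter.LFunction (1 : DirichletCharacter ℂ q) s -
      ((q.totient : ℂ) / q) * ((y : ℂ) ^ (1 - s) / (1 - s))‖ ≤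
      q * (4 * (2 * ‖s‖ + 1) * y ^ (-s.re)) := by
  have hq : q ≠ 0 := NeZero.ne q
  have hqR : (1 : ℝ) ≤ q := by exact_mod_cast Nat.one_le_iff_ne_zero.2 hq
  have hy0 : 0 < y := by linarith
  have hL : DirichletCharacter.LFunction (1 : DirichletCharacter ℂ q) s =
      (∑ d ∈ q.divisors, (moebius d : ℂ) * (d : ℂ) ^ (-s)) * riemannZeta s := by
    rw [moebSumTR2 q hq]
    exact DirichletCharacter.LFunctionTrivChar_eq_mul_riemannZeta hs
  rw [hL, ← totTR2 q hq, DS_TR2, sum_mul, sum_mul, ← sum_sub_distrib, ← sum_sub_distrib]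
  calc _ ≤ ∑ d ∈ q.divisors, 4 * (2 * ‖s‖ + 1) * y ^ (-s.re) := by
        refine (norm_sum_le _ _).trans (sum_le_sum fun d hd => ?_)
        have hd0 : 0 < d := Nat.pos_of_mem_divisors hd
        have hdq : (d : ℝ) ≤ q := by
          exact_mod_cast Nat.divisor_le hd
        have h1 := oneTR2 hA s hs hre hre2 y d hd0 (hdq.trans hqy)
        have h2 : (moebius d : ℂ) * (d : ℂ) ^ (-s) * ∑ k ∈ Icc 1 (⌊y⌋₊ / d), (k : ℂ) ^ (-s) -
            (moebius d : ℂ) * (d : ℂ) ^ (-s) * riemannZeta s -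
            (moebius d : ℂ) * ((d : ℂ))⁻¹ * ((y : ℂ) ^ (1 - s) / (1 - s)) =
            (moebius d : ℂ) * ((d : ℂ) ^ (-s) * ∑ k ∈ Icc 1 (⌊y⌋₊ / d), (k : ℂ) ^ (-s) -
              (d : ℂ) ^ (-s) * riemannZeta s - ((d : ℂ))⁻¹ * ((y : ℂ) ^ (1 - s) / (1 - s))) := by
          ring
        rw [h2, norm_mul]
        have h3 : ‖(moebius d : ℂ)‖ ≤ 1 := by
          rw [Complex.norm_intCast]
          exact_mod_cast abs_moebius_le_one
        calc _ ≤ 1 * (4 * (2 * ‖s‖ + 1) * y ^ (-s.re)) :=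
              mul_le_mul h3 h1 (norm_nonneg _) (by norm_num)
          _ = _ := one_mul _
    _ = (q.divisors.card : ℝ) * (4 * (2 * ‖s‖ + 1) * y ^ (-s.re)) := by
        rw [sum_const, nsmul_eq_mul]
    _ ≤ _ := by
        refine mul_le_mul_of_nonneg_right ?_ (by positivity)
        exact_mod_cast Nat.card_divisors_le_self q

private lemma abelIdTR2 (c : ℕ → ℂ) (w : ℕ → ℝ) (a b : ℕ) (hab : a ≤ b) :
    ∑ n ∈ Ioc a b, ((w n : ℝ) : ℂ) * c n =
      ((w (b + 1) : ℝ) : ℂ) * ∑ n ∈ Ioc a b, c n +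
        ∑ m ∈ Ioc a b, (((w m - w (m + 1) : ℝ)) : ℂ) * ∑ n ∈ Ioc a m, c n := by
  induction b, hab using Nat.le_induction with
  | base => simp
  | succ b hab ih =>
    rw [← insert_Ioc_right_eq_Ioc_add_one (by omega : a ≤ b), sum_insert (by simp),
      sum_insert (by simp), sum_insert (by simp), ih,
      ← insert_Ioc_right_eq_Ioc_add_one (by omega : a ≤ b), sum_insert (by simp)]
    push_cast
    ring

private lemma teleTR2 (w : ℕ → ℝ) (a b : ℕ) (hab : a ≤ b) :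
    ∑ m ∈ Ioc a b, (w m - w (m + 1)) = w (a + 1) - w (b + 1) := by
  induction b, hab using Nat.le_induction with
  | base => simp
  | succ b hab ih =>
    rw [← insert_Ioc_right_eq_Ioc_add_one (by omega : a ≤ b), sum_insert (by simp), ih]
    ring

private lemma abelTR2 (c : ℕ → ℂ) (w : ℕ → ℝ) (a b : ℕ) (B : ℝ) (hab : a ≤ b)
    (hw : ∀ n, a < n → 0 ≤ w n) (hw' : ∀ n, a < n → w (n + 1) ≤ w n)
    (hB : ∀ m, a ≤ m → m ≤ b → ‖∑ n ∈ Ioc a m, c n‖ ≤ B) :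
    ‖∑ n ∈ Ioc a b, ((w n : ℝ) : ℂ) * c n‖ ≤ B * w (a + 1) := by
  rw [abelIdTR2 c w a b hab]
  have h1 : ‖((w (b + 1) : ℝ) : ℂ) * ∑ n ∈ Ioc a b, c n‖ ≤ w (b + 1) * B := by
    rw [norm_mul, Complex.norm_real, Real.norm_of_nonneg (hw _ (by omega))]
    exact mul_le_mul_of_nonneg_left (hB b hab le_rfl) (hw _ (by omega))
  have h2 : ‖∑ m ∈ Ioc a b, (((w m - w (m + 1) : ℝ)) : ℂ) * ∑ n ∈ Ioc a m, c n‖ ≤
      ∑ m ∈ Ioc a b, (w m - w (m + 1)) * B := by
    refine (norm_sum_le _ _).trans (sum_le_sum fun m hm => ?_)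
    rw [mem_Ioc] at hm
    rw [norm_mul, Complex.norm_real, Real.norm_of_nonneg (by linarith [hw' m hm.1])]
    exact mul_le_mul_of_nonneg_left (hB m hm.1.le hm.2) (by linarith [hw' m hm.1])
  rw [← sum_mul, teleTR2 w a b hab] at h2
  calc _ ≤ w (b + 1) * B + (w (a + 1) - w (b + 1)) * B := (norm_add_le _ _).trans (add_le_add h1 h2)
    _ = _ := by ring

private lemma resTR2 {q : ℕ} [NeZero q] (χ : DirichletCharacter ℂ q) (g : ℕ → ℂ) (S : Finset ℕ)
    (B : ℝ) (hB : ∀ u < q, ‖∑ n ∈ S.filter (fun n => n ≡ u [MOD q]), g n‖ ≤ B) :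
    ‖∑ n ∈ S, χ (n : ZMod q) * g n‖ ≤ q * B := by
  have hq : 0 < q := Nat.pos_of_ne_zero (NeZero.ne q)
  have h1 : ∑ n ∈ S, χ (n : ZMod q) * g n =
      ∑ u ∈ range q, χ (u : ZMod q) * ∑ n ∈ S.filter (fun n => n ≡ u [MOD q]), g n := by
    rw [← sum_fiberwise_of_maps_to (s := S) (t := range q) (g := fun n => n % q)
      (fun n _ => mem_range.2 (Nat.mod_lt _ hq))]
    refine sum_congr rfl fun u hu => ?_
    rw [mem_range] at hu
    rw [mul_sum]
    have h2 : S.filter (fun n => n % q = u) = S.filter (fun n => n ≡ u [MOD q]) := by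
      refine filter_congr fun n _ => ?_
      unfold Nat.ModEq
      rw [Nat.mod_eq_of_lt hu]
    rw [h2]
    refine sum_congr rfl fun n hn => ?_
    rw [mem_filter] at hn
    rw [(ZMod.natCast_eq_natCast_iff n u q).2 hn.2]
  rw [h1]
  calc _ ≤ ∑ u ∈ range q, B := by
        refine (norm_sum_le _ _).trans (sum_le_sum fun u hu => ?_)
        rw [mem_range] at hu
        rw [norm_mul]
        calc _ ≤ 1 * ‖∑ n ∈ S.filter (fun n => n ≡ u [MOD q]), g n‖ :=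
              mul_le_mul_of_nonneg_right (DirichletCharacter.norm_le_one χ _) (norm_nonneg _)
          _ ≤ B := by rw [one_mul]; exact hB u hu
    _ = q * B := by simp

private lemma cpowTR2 (s : ℂ) (n : ℕ) (hn : 0 < n) :
    (n : ℂ) ^ (-s) = (((n : ℝ) ^ (-s.re) : ℝ) : ℂ) * ch s.im n := by
  have h0 : (n : ℂ) ≠ 0 := by exact_mod_cast hn.ne'
  rw [Complex.cpow_def_of_ne_zero h0, ← Complex.natCast_log, Real.rpow_def_of_pos (by exact_mod_cast hn), ch,
    Complex.ofReal_exp, ← Complex.exp_add]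
  congr 1
  apply Complex.ext
  · simp
    ring
  · simp
    ring

/-- one dyadic piece -/
private lemma pieceTR2 {q : ℕ} [NeZero q] (χ : DirichletCharacter ℂ q) (s : ℂ) (N N' : ℕ) (B : ℝ)
    (hN : 1 ≤ N) (hNN : N ≤ N') (hre : 0 ≤ s.re) (hB0 : 0 ≤ B)
    (hB : ∀ m u : ℕ, N ≤ m → m ≤ N' →
      ‖∑ n ∈ (Ioc N m).filter (fun n => n ≡ u [MOD q]), ch s.im n‖ ≤ B) :
    ‖∑ n ∈ Ioc N N', χ (n : ZMod q) * (n : ℂ) ^ (-s)‖ ≤ q * B * (N : ℝ) ^ (-s.re) := by
  have h1 : ∑ n ∈ Ioc N N', χ (n : ZMod q) * (n : ℂ) ^ (-s) =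
      ∑ n ∈ Ioc N N', (((n : ℝ) ^ (-s.re) : ℝ) : ℂ) * (χ (n : ZMod q) * ch s.im n) := by
    refine sum_congr rfl fun n hn => ?_
    rw [mem_Ioc] at hn
    rw [cpowTR2 s n (by omega)]
    ring
  rw [h1]
  have h2 := abelTR2 (fun n => χ (n : ZMod q) * ch s.im n) (fun n => (n : ℝ) ^ (-s.re)) N N'
    (q * B) hNN (fun n _ => by positivity)
    (fun n hn => by
      have hn0 : (0 : ℝ) < n := by
        have : 0 < n := lt_of_le_of_lt (Nat.zero_le _) hn
        exact_mod_cast this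
      push_cast
      exact Real.rpow_le_rpow_of_nonpos hn0 (by linarith) (by linarith))
    (fun m hm1 hm2 => resTR2 χ (fun n => ch s.im n) _ _ fun u _ => hB m u hm1 hm2)
  refine h2.trans ?_
  refine mul_le_mul_of_nonneg_left ?_ (by positivity)
  have hN0 : (0 : ℝ) < N := by exact_mod_cast hN
  refine Real.rpow_le_rpow_of_nonpos hN0 ?_ (by linarith)
  push_cast
  linarith

private lemma dyaTR2 (f : ℕ → ℂ) (N0 M : ℕ) (B : ℝ) (hB : 0 ≤ B)
    (h : ∀ N N' : ℕ, N0 ≤ N → N ≤ N' → N' ≤ 2 * N → N' ≤ M → ‖∑ n ∈ Ioc N N', f n‖ ≤ B) (j : ℕ) :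
    ∀ N N' : ℕ, N0 ≤ N → N ≤ N' → N' ≤ 2 ^ j * N → N' ≤ M → ‖∑ n ∈ Ioc N N', f n‖ ≤ j * B := by
  induction j with
  | zero =>
    intro N N' _ h1 h2 _
    have : N' = N := by omega
    rw [this]
    simp
  | succ j ih =>
    intro N N' h0 h1 h2 h3
    by_cases hc : N' ≤ 2 * N
    · refine (h N N' h0 h1 hc h3).trans ?_
      push_cast
      nlinarith [Nat.cast_nonneg (α := ℝ) j]
    · push Not at hc
      rw [← sum_Ioc_consecutive f (by omega : N ≤ 2 * N) hc.le]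
      have h4 := h N (2 * N) h0 (by omega) le_rfl (by omega)
      have h5 := ih (2 * N) N' (by omega) hc.le (by rw [pow_succ] at h2; linarith) h3
      refine (norm_add_le _ _).trans ?_
      push_cast
      linarith

private lemma powTR2 {X c : ℝ} (hX : 1 ≤ X) (hc : 0 ≤ c) {u σ : ℝ} (hu : 1 ≤ u) (huX : u ≤ X ^ (8 : ℝ))
    (hσ : 1 - c ≤ σ) : u ^ (1 - σ) ≤ X ^ (8 * c) := by
  calc u ^ (1 - σ) ≤ u ^ c := Real.rpow_le_rpow_of_exponent_le hu (by linarith)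
    _ ≤ (X ^ (8 : ℝ)) ^ c := Real.rpow_le_rpow (by linarith) huX hc
    _ = X ^ (8 * c) := by rw [← Real.rpow_mul (by linarith)]

theorem hTr2 (hE4 : StEs4) : StTr2 := by
  intro κ hκ hκ1
  obtain ⟨C, c', hC, hc', hE⟩ := hE4 (κ / 2) (by linarith) (by linarith)
  set c : ℝ := min κ c' / 40 with hc
  have hc0 : 0 < c := by rw [hc]; have := lt_min hκ hc'; linarith
  have hcκ : 40 * c ≤ κ := by rw [hc]; have := min_le_left κ c'; linarith
  have hcc' : 40 * c ≤ c' := by rw [hc]; have := min_le_right κ c'; linarith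
  set K : ℝ := max 84 (78 * C / c) with hK
  have hK84 : 84 ≤ K := le_max_left _ _
  have hKC : 78 * C / c ≤ K := le_max_right _ _
  refine ⟨c, K ^ (1 / c), hc0, by linarith, ?_, ?_⟩
  · calc (2 : ℝ) ≤ K := by linarith
      _ = K ^ (1 : ℝ) := (Real.rpow_one K).symm
      _ ≤ K ^ (1 / c) := by
          refine Real.rpow_le_rpow_of_exponent_le (by linarith) ?_
          rw [le_div_iff₀ hc0]
          linarith
  intro X y q _ s hX hq hy hs hre hre2 him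
  have hK0 : 0 < K := by linarith
  have hX84 : 84 ≤ X := by
    refine le_trans ?_ hX
    calc (84 : ℝ) ≤ K := hK84
      _ = K ^ (1 : ℝ) := (Real.rpow_one K).symm
      _ ≤ K ^ (1 / c) := by
          refine Real.rpow_le_rpow_of_exponent_le (by linarith) ?_
          rw [le_div_iff₀ hc0]
          linarith
  have hX1 : 1 ≤ X := by linarith
  have hX0 : 0 < X := by linarith
  have hXc : K ≤ X ^ c := by
    calc K = (K ^ (1 / c)) ^ c := by
          rw [← Real.rpow_mul hK0.le, one_div, inv_mul_cancel₀ hc0.ne', Real.rpow_one]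
      _ ≤ X ^ c := Real.rpow_le_rpow (by positivity) hX hc0.le
  have hXmc : X ^ (-c) * K ≤ 1 := by
    have h0 : X ^ (-c) * X ^ c = 1 := by
      rw [← Real.rpow_add hX0, neg_add_cancel, Real.rpow_zero]
    calc X ^ (-c) * K ≤ X ^ (-c) * X ^ c := mul_le_mul_of_nonneg_left hXc (by positivity)
      _ = 1 := h0
  have hmc0 : 0 < X ^ (-c) := by positivity
  have mono : ∀ {a b : ℝ}, a ≤ b → X ^ a ≤ X ^ b := fun h => Real.rpow_le_rpow_of_exponent_le hX1 h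
  -- absorbing constants
  have absb : ∀ (D e : ℝ), 0 ≤ D → D ≤ K → e ≤ -2 * c → D * X ^ e ≤ X ^ (-c) := by
    intro D e hD hDK he
    have h1 : X ^ e ≤ X ^ (-c) * X ^ (-c) := by
      rw [← Real.rpow_add hX0]
      exact mono (by linarith)
    calc D * X ^ e ≤ K * (X ^ (-c) * X ^ (-c)) :=
          mul_le_mul hDK h1 (by positivity) hK0.le
      _ = (X ^ (-c) * K) * X ^ (-c) := by ring
      _ ≤ 1 * X ^ (-c) := mul_le_mul_of_nonneg_right hXmc hmc0.le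
      _ = X ^ (-c) := one_mul _
  have hA : Pool.Agent.Helper23.GK.StAp2 := Pool.Agent.Helper81.GK.hAP2
  have hq0 : (1 : ℝ) ≤ q := by exact_mod_cast Nat.one_le_iff_ne_zero.2 (NeZero.ne q)
  have hXκ1 : 1 ≤ X ^ κ := Real.one_le_rpow hX1 hκ.le
  have hy1 : 1 ≤ y := hXκ1.trans hy
  have hqy : (q : ℝ) ≤ y := (hq.trans (mono (by linarith))).trans hy
  have hre1 : 1 / 2 ≤ s.re := by linarith
  have hns : ‖s‖ ≤ 2 + |s.im| := by
    calc ‖s‖ ≤ |s.re| + |s.im| := Complex.norm_le_abs_re_add_abs_im s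
      _ ≤ 2 + |s.im| := by
          have : |s.re| ≤ 2 := by rw [abs_of_nonneg (by linarith)]; exact hre2
          linarith
  -- general bound from bscTR2
  have gen : ∀ (z T : ℝ) (e : ℝ), (q : ℝ) ≤ z → 1 ≤ z → 1 ≤ X ^ T → |s.im| ≤ X ^ T →
      X ^ e ≤ z → 0 ≤ e →
      ‖DS (1 : DirichletCharacter ℂ q) z s -
        DirichletCharacter.LFunction (1 : DirichletCharacter ℂ q) s -
        ((q.totient : ℂ) / q) * ((z : ℂ) ^ (1 - s) / (1 - s))‖ ≤
        28 * X ^ (c + T - e * (1 - c)) := by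
    intro z T e hqz hz1 hT1 hT hez he
    refine (bscTR2 hA q s hs hre1 hre2 z hqz).trans ?_
    have h1 : z ^ (-s.re) ≤ X ^ (-(e * (1 - c))) := by
      calc z ^ (-s.re) ≤ z ^ (-(1 - c)) := Real.rpow_le_rpow_of_exponent_le hz1 (by linarith)
        _ ≤ (X ^ e) ^ (-(1 - c)) := Real.rpow_le_rpow_of_nonpos (by positivity) hez (by linarith)
        _ = X ^ (-(e * (1 - c))) := by rw [← Real.rpow_mul hX0.le]; congr 1; ring
    have h2 : 4 * (2 * ‖s‖ + 1) ≤ 28 * X ^ T := by linarith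
    calc (q : ℝ) * (4 * (2 * ‖s‖ + 1) * z ^ (-s.re))
        ≤ X ^ c * (28 * X ^ T * X ^ (-(e * (1 - c)))) := by
          refine mul_le_mul hq ?_ (by positivity) (by positivity)
          exact mul_le_mul h2 h1 (by positivity) (by positivity)
      _ = 28 * (X ^ c * X ^ T * X ^ (-(e * (1 - c)))) := by ring
      _ = _ := by
          rw [← Real.rpow_add hX0, ← Real.rpow_add hX0, ← sub_eq_add_neg]
  by_cases h1 : |s.im| ≤ X ^ (κ / 2)
  · -- small height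
    refine (gen y (κ / 2) κ hqy hy1 (Real.one_le_rpow hX1 (by linarith)) h1 hy hκ.le).trans ?_
    have hκc : κ * c ≤ 1 * c := mul_le_mul_of_nonneg_right hκ1 hc0.le
    exact absb 28 _ (by norm_num) (by linarith) (by linarith)
  push Not at h1
  have hX2 : |s.im| ≤ X ^ (2 : ℝ) := by exact_mod_cast him
  have hX2' : 1 ≤ X ^ (2 : ℝ) := Real.one_le_rpow hX1 (by norm_num)
  by_cases h2 : X ^ (8 : ℝ) ≤ y
  · refine (gen y 2 8 hqy hy1 hX2' hX2 h2 (by norm_num)).trans ?_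
    exact absb 28 _ (by norm_num) (by linarith) (by linarith)
  push Not at h2
  set z : ℝ := X ^ (8 : ℝ) with hz
  have hz1 : 1 ≤ z := Real.one_le_rpow hX1 (by norm_num)
  have hqz : (q : ℝ) ≤ z := hqy.trans h2.le
  have hb1 := gen z 2 8 hqz hz1 hX2' hX2 le_rfl (by norm_num)
  -- the sum between y and z
  have hfl : ⌊y⌋₊ ≤ ⌊z⌋₊ := Nat.floor_le_floor h2.le
  have hdiff : DS (1 : DirichletCharacter ℂ q) z s - DS (1 : DirichletCharacter ℂ q) y s =
      ∑ m ∈ Ioc ⌊y⌋₊ ⌊z⌋₊, (1 : DirichletCharacter ℂ q) (m : ZMod q) * (m : ℂ) ^ (-s) := by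
    unfold DS
    rw [← sum_Ioc_consecutive _ (Nat.zero_le ⌊y⌋₊) hfl]
    ring
  have ht1 : 1 ≤ |s.im| := (Real.one_le_rpow hX1 (by linarith)).trans h1.le
  have ht0 : 0 < |s.im| := by linarith
  have hinv : 1 / |s.im| ≤ X ^ (-(κ / 2)) := by
    rw [Real.rpow_neg hX0.le, ← one_div]
    exact one_div_le_one_div_of_le (by positivity) h1.le
  set Q : ℝ := 1 / |s.im| + X ^ (-c') with hQ
  have hQ0 : 0 ≤ Q := by positivity
  have hQ1 : Q ≤ 2 * X ^ (-(20 * c)) := by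
    have h3 : X ^ (-(κ / 2)) ≤ X ^ (-(20 * c)) := mono (by linarith)
    have h4 : X ^ (-c') ≤ X ^ (-(20 * c)) := mono (by linarith)
    linarith
  set B : ℝ := 2 * C * X ^ (-(10 * c)) with hBdef
  have hB0 : 0 ≤ B := by positivity
  have hN0y : X ^ (κ / 2) ≤ (⌊y⌋₊ : ℝ) := by
    have h3 : y < ⌊y⌋₊ + 1 := Nat.lt_floor_add_one y
    have h4 : X ^ κ = X ^ (κ / 2) * X ^ (κ / 2) := by
      rw [← Real.rpow_add hX0]; congr 1; ring
    have h5 : 84 ≤ X ^ (κ / 2) := (hK84.trans hXc).trans (mono (by linarith))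
    have h6 : 84 * X ^ (κ / 2) ≤ X ^ (κ / 2) * X ^ (κ / 2) :=
      mul_le_mul_of_nonneg_right h5 (by positivity)
    linarith
  have hpc : ∀ N N' : ℕ, ⌊y⌋₊ ≤ N → N ≤ N' → N' ≤ 2 * N → N' ≤ ⌊z⌋₊ →
      ‖∑ m ∈ Ioc N N', (1 : DirichletCharacter ℂ q) (m : ZMod q) * (m : ℂ) ^ (-s)‖ ≤ B := by
    intro N N' hN hNN hN2 hNM
    have hNκ : X ^ (κ / 2) ≤ (N : ℝ) := hN0y.trans (by exact_mod_cast hN)
    have hN1 : 1 ≤ N := by
      have : (0 : ℝ) < N := lt_of_lt_of_le (by positivity) hNκ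
      exact_mod_cast this
    have hNR : (1 : ℝ) ≤ N := by exact_mod_cast hN1
    have hNz : (N : ℝ) ≤ z := by
      have h3 : N ≤ ⌊z⌋₊ := hNN.trans hNM
      exact (by exact_mod_cast h3 : (N : ℝ) ≤ (⌊z⌋₊ : ℝ)).trans (Nat.floor_le (by linarith))
    have h3 := pieceTR2 (1 : DirichletCharacter ℂ q) s N N' (C * q * N * Q) hN1 hNN (by linarith)
      (by positivity) (fun m u hm1 hm2 => hE X N m q u s.im (by linarith) hNκ hm1
        (hm2.trans hN2) (Nat.one_le_iff_ne_zero.2 (NeZero.ne q)) ht1 him)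
    refine h3.trans ?_
    have h4 : (N : ℝ) * (N : ℝ) ^ (-s.re) ≤ X ^ (8 * c) := by
      have h5 := powTR2 hX1 hc0.le hNR hNz hre
      have h6 : (N : ℝ) * (N : ℝ) ^ (-s.re) = (N : ℝ) ^ (1 - s.re) := by
        rw [sub_eq_add_neg, Real.rpow_add (by linarith), Real.rpow_one]
      rw [h6]
      exact h5
    calc (q : ℝ) * (C * q * N * Q) * (N : ℝ) ^ (-s.re)
        = C * (q * q) * Q * ((N : ℝ) * (N : ℝ) ^ (-s.re)) := by ring
      _ ≤ C * (X ^ c * X ^ c) * (2 * X ^ (-(20 * c))) * X ^ (8 * c) := by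
          gcongr
      _ = 2 * C * (X ^ c * X ^ c * X ^ (-(20 * c)) * X ^ (8 * c)) := by ring
      _ = B := by
          rw [← Real.rpow_add hX0, ← Real.rpow_add hX0, ← Real.rpow_add hX0, hBdef]
          congr 2
          ring
  set j : ℕ := ⌈8 * Real.log X / Real.log 2⌉₊ with hj
  have hlogX : 0 < Real.log X := Real.log_pos (by linarith)
  have hlog2 : 0 < Real.log 2 := Real.log_pos (by norm_num)
  have hjle : 8 * Real.log X / Real.log 2 ≤ j := Nat.le_ceil _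
  have hjlt : (j : ℝ) < 8 * Real.log X / Real.log 2 + 1 := Nat.ceil_lt_add_one (by positivity)
  have h2j : z ≤ (2 : ℝ) ^ j := by
    rw [hz, ← Real.rpow_natCast, Real.rpow_def_of_pos hX0, Real.rpow_def_of_pos (by norm_num : (0:ℝ) < 2)]
    refine Real.exp_le_exp.2 ?_
    rw [div_le_iff₀ hlog2] at hjle
    linarith
  have hfN : ⌊z⌋₊ ≤ 2 ^ j * ⌊y⌋₊ := by
    have h3 : ⌊z⌋₊ ≤ 2 ^ j := by
      have h4 : (⌊z⌋₊ : ℝ) ≤ ((2 ^ j : ℕ) : ℝ) := by
        push_cast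
        exact (Nat.floor_le (by linarith)).trans h2j
      exact_mod_cast h4
    have h5 : 1 ≤ ⌊y⌋₊ := Nat.le_floor (by simpa using hy1)
    calc ⌊z⌋₊ ≤ 2 ^ j * 1 := by rw [mul_one]; exact h3
      _ ≤ 2 ^ j * ⌊y⌋₊ := Nat.mul_le_mul_left _ h5
  have hsum := dyaTR2 (fun m => (1 : DirichletCharacter ℂ q) (m : ZMod q) * (m : ℂ) ^ (-s)) ⌊y⌋₊ ⌊z⌋₊
    B hB0 hpc j ⌊y⌋₊ ⌊z⌋₊ le_rfl hfl hfN le_rfl
  have hjX : (j : ℝ) ≤ 13 * X ^ c / c := by
    have h3 : Real.log X ≤ X ^ c / c := Real.log_le_rpow_div hX0.le hc0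
    have h4 : 8 * Real.log X / Real.log 2 ≤ 12 * Real.log X := by
      rw [div_le_iff₀ hlog2]
      have h7 := Real.log_two_gt_d9
      have h8 : 12 * Real.log X * (2 / 3) ≤ 12 * Real.log X * Real.log 2 :=
        mul_le_mul_of_nonneg_left (by linarith) (by linarith)
      linarith
    have h5 : 1 ≤ X ^ c / c := by
      rw [le_div_iff₀ hc0]
      have : 1 ≤ X ^ c := Real.one_le_rpow hX1 hc0.le
      linarith
    have h6 : 13 * X ^ c / c = 13 * (X ^ c / c) := by ring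
    rw [h6]
    linarith
  have hsum2 : (j : ℝ) * B ≤ 26 * C / c * X ^ (-(9 * c)) := by
    calc (j : ℝ) * B ≤ 13 * X ^ c / c * (2 * C * X ^ (-(10 * c))) :=
          mul_le_mul_of_nonneg_right hjX hB0
      _ = 26 * C / c * (X ^ c * X ^ (-(10 * c))) := by ring
      _ = _ := by
          rw [← Real.rpow_add hX0]
          congr 2
          ring
  -- pole terms
  have hpole : ∀ u : ℝ, 1 ≤ u → u ≤ z →
      ‖((q.totient : ℂ) / q) * ((u : ℂ) ^ (1 - s) / (1 - s))‖ ≤ X ^ (-(12 * c)) := by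
    intro u hu1 huz
    have h3 : ‖((q.totient : ℂ) / q)‖ ≤ 1 := by
      rw [norm_div, Complex.norm_natCast, Complex.norm_natCast, div_le_one (by linarith)]
      exact_mod_cast Nat.totient_le q
    have h4 : ‖(u : ℂ) ^ (1 - s)‖ ≤ X ^ (8 * c) := by
      rw [Complex.norm_cpow_eq_rpow_re_of_pos (by linarith), Complex.sub_re, Complex.one_re]
      exact powTR2 hX1 hc0.le hu1 huz hre
    have h5 : |s.im| ≤ ‖1 - s‖ := by
      have := Complex.abs_im_le_norm (1 - s)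
      rwa [Complex.sub_im, Complex.one_im, zero_sub, abs_neg] at this
    have h6 : ‖(u : ℂ) ^ (1 - s) / (1 - s)‖ ≤ X ^ (8 * c) / |s.im| := by
      rw [norm_div]
      exact div_le_div₀ (by positivity) h4 ht0 h5
    rw [norm_mul]
    calc _ ≤ 1 * (X ^ (8 * c) / |s.im|) := mul_le_mul h3 h6 (norm_nonneg _) (by norm_num)
      _ = X ^ (8 * c) * (1 / |s.im|) := by ring
      _ ≤ X ^ (8 * c) * X ^ (-(κ / 2)) := mul_le_mul_of_nonneg_left hinv (by positivity)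
      _ = X ^ (8 * c + -(κ / 2)) := by rw [← Real.rpow_add hX0]
      _ ≤ X ^ (-(12 * c)) := mono (by linarith)
  have hp1 := hpole y hy1 h2.le
  have hp2 := hpole z hz1 le_rfl
  have hdec : DS (1 : DirichletCharacter ℂ q) y s -
      DirichletCharacter.LFunction (1 : DirichletCharacter ℂ q) s -
      ((q.totient : ℂ) / q) * ((y : ℂ) ^ (1 - s) / (1 - s)) =
      (DS (1 : DirichletCharacter ℂ q) z s -
        DirichletCharacter.LFunction (1 : DirichletCharacter ℂ q) s -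
        ((q.totient : ℂ) / q) * ((z : ℂ) ^ (1 - s) / (1 - s))) -
      (DS (1 : DirichletCharacter ℂ q) z s - DS (1 : DirichletCharacter ℂ q) y s) +
      ((q.totient : ℂ) / q) * ((z : ℂ) ^ (1 - s) / (1 - s)) -
      ((q.totient : ℂ) / q) * ((y : ℂ) ^ (1 - s) / (1 - s)) := by ring
  rw [hdec]
  have hn : ∀ a b c d : ℂ, ‖a - b + c - d‖ ≤ ‖a‖ + ‖b‖ + ‖c‖ + ‖d‖ := by
    intro a b c d
    calc ‖a - b + c - d‖ ≤ ‖a - b + c‖ + ‖d‖ := norm_sub_le _ _
      _ ≤ ‖a - b‖ + ‖c‖ + ‖d‖ := by gcongr; exact norm_add_le _ _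
      _ ≤ _ := by gcongr; exact norm_sub_le _ _
  refine (hn _ _ _ _).trans ?_
  rw [hdiff]
  have f1 : 3 * (28 * X ^ (c + 2 - 8 * (1 - c))) ≤ X ^ (-c) := by
    rw [← mul_assoc]
    exact absb (3 * 28) _ (by norm_num) (by linarith) (by linarith)
  have f2 : 3 * (26 * C / c * X ^ (-(9 * c))) ≤ X ^ (-c) := by
    rw [← mul_assoc]
    refine absb (3 * (26 * C / c)) _ (by positivity) ?_ (by linarith)
    calc 3 * (26 * C / c) = 78 * C / c := by ring
      _ ≤ K := hKC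
  have f3 : 6 * X ^ (-(12 * c)) ≤ X ^ (-c) :=
    absb 6 _ (by norm_num) (by linarith) (by linarith)
  have f4 := hsum.trans hsum2
  linarith

end Pool.Agent.Helper8.MV
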